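import Pool.Agent.H50.HYP.Main

set_option autoImplicit false

/-!
# The Havet–Yu conjecture for Cartesian products

Proof.  Let `G` have a circular `(p+q,1)`-total labelling `f` with `N` labels and `H` a circular
`(p,1)`-total labelling `f'` with `M` labels in which the vertices only get the labels `0, …, 2 q`,
`Δ(G) + M ≤ N`.  The edges of all copies of `G` are labelled by `f`.  At least `M` labels do not
occur at the edges at a vertex `g` of `G`, and among them are the `2 q + 1` consecutive labels around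
`f g`; they are matched with the labels of `H`, in the cyclic order, so that the label `q` of `H`
corresponds to `f g`, and the copy of `H` at `g` gets the corresponding labels.  Distances can only
grow.  A graph `H` with `k` vertex colours and `k'` edge colours has such a labelling with
`M = k + k' + 2 p - 2` and `q = k / 2` (for bipartite graphs `k = 2` and `k' = Δ(H)`, by König's
theorem, so `M = Δ(H) + 2 p`), and a cycle has one with `M = 2 + 2 p` and `q = 1`.  The labellings of
`G` are those of the starting results `Asymptotic` and `LogarithmicError`.  In the linear statements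
the vertices of the copy of `H` at `g` get the labels `x g, …, x g + k - 1`, and its edges get `k'`
labels which do not occur at `g` and are not close to these.
-/

namespace Pool.Agent.Results.MP_b8729f_co.CartesianProducts

/-- `TotalLabeling G p l`: the graph `G` has a `(p,1)`-total labeling of span `l`, that is, labels
`0, …, l` for the vertices (`fV`) and the edges (`fE`) such that adjacent vertices get different
labels, edges sharing an endpoint get different labels, and the labels of a vertex and of an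
incident edge differ by at least `p`. -/
def TotalLabeling {V : Type} (G : SimpleGraph V) (p l : ℕ) : Prop :=
  ∃ (fV : V → ℕ) (fE : Sym2 V → ℕ),
    (∀ v, fV v ≤ l) ∧ (∀ e ∈ G.edgeSet, fE e ≤ l) ∧
    (∀ u v, G.Adj u v → fV u ≠ fV v) ∧
    (∀ u v w, G.Adj u v → G.Adj u w → v ≠ w → fE s(u, v) ≠ fE s(u, w)) ∧
    (∀ u v, G.Adj u v → (p : ℤ) ≤ |(fV u : ℤ) - (fE s(u, v) : ℤ)|)

/-- `CircularLabeling G p N`: a circular `(p,1)`-total labeling of `G` with the `N` labels
`0, …, N - 1` placed around a circle: as above, but the distance of the labels of a vertex and of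
an incident edge, measured around the circle, is at least `p`
(so `p ≤ |fV u - fE uv| ≤ N - p`). -/
def CircularLabeling {V : Type} (G : SimpleGraph V) (p N : ℕ) : Prop :=
  ∃ (fV : V → ℕ) (fE : Sym2 V → ℕ),
    (∀ v, fV v < N) ∧ (∀ e ∈ G.edgeSet, fE e < N) ∧
    (∀ u v, G.Adj u v → fV u ≠ fV v) ∧
    (∀ u v w, G.Adj u v → G.Adj u w → v ≠ w → fE s(u, v) ≠ fE s(u, w)) ∧
    (∀ u v, G.Adj u v → (p : ℤ) ≤ |(fV u : ℤ) - (fE s(u, v) : ℤ)| ∧
      |(fV u : ℤ) - (fE s(u, v) : ℤ)| ≤ (N : ℤ) - p)

/-- A circular `(p,1)`-total labeling with `N` labels in which all labels of vertices are at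
most `m`. -/
def ShortLabeling {V : Type} (G : SimpleGraph V) (p N m : ℕ) : Prop :=
  ∃ (fV : V → ℕ) (fE : Sym2 V → ℕ),
    (∀ v, fV v ≤ m) ∧ (∀ e ∈ G.edgeSet, fE e < N) ∧
    (∀ u v, G.Adj u v → fV u ≠ fV v) ∧
    (∀ u v w, G.Adj u v → G.Adj u w → v ≠ w → fE s(u, v) ≠ fE s(u, w)) ∧
    (∀ u v, G.Adj u v → (p : ℤ) ≤ |(fV u : ℤ) - (fE s(u, v) : ℤ)| ∧
      |(fV u : ℤ) - (fE s(u, v) : ℤ)| ≤ (N : ℤ) - p)

/-- `a` is the maximum degree of `G`. -/
def MaxDegree {V : Type} (G : SimpleGraph V) (a : ℕ) : Prop :=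
  (∀ v, (G.neighborSet v).ncard ≤ a) ∧ ∃ v, (G.neighborSet v).ncard = a

/-- `G` has a proper vertex colouring with `k` colours and a proper edge colouring with `k'`
colours. -/
def Colourings {V : Type} (G : SimpleGraph V) (k k' : ℕ) : Prop :=
  G.Colorable k ∧ ∃ c : Sym2 V → ℕ, (∀ e ∈ G.edgeSet, c e < k') ∧
    ∀ x y z, G.Adj x y → G.Adj x z → y ≠ z → c s(x, y) ≠ c s(x, z)

/-- The inequality `λ ≤ Δ + 2 p - 1` of the Havet–Yu conjecture for the graph `G` and the
number `p`. -/
def HavetYu {V : Type} (G : SimpleGraph V) (p : ℕ) : Prop :=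
  ∀ Δ, MaxDegree G Δ → TotalLabeling G p (Δ + 2 * p - 1)

/-- The same with the labels on a circle. -/
def CircularHavetYu {V : Type} (G : SimpleGraph V) (p : ℕ) : Prop :=
  ∀ Δ, MaxDegree G Δ → CircularLabeling G p (Δ + 2 * p)

theorem hy_box {V W : Type} [Fintype V] [Fintype W] {G : SimpleGraph V} {H : SimpleGraph W}
    {a b p : ℕ} (hG : MaxDegree G a) (hH : MaxDegree H b)
    (h : TotalLabeling (G.boxProd H) p (a + b + 2 * p - 1)) : HavetYu (G.boxProd H) p := by
  intro Δ hΔ
  have e := Pool.Agent.H50.HYP.maxD_box hG hH hΔ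
  rw [e]
  exact h

theorem chy_box {V W : Type} [Fintype V] [Fintype W] {G : SimpleGraph V} {H : SimpleGraph W}
    {a b p : ℕ} (hG : MaxDegree G a) (hH : MaxDegree H b)
    (h : CircularLabeling (G.boxProd H) p (a + b + 2 * p)) :
    CircularHavetYu (G.boxProd H) p ∧ HavetYu (G.boxProd H) p := by
  refine ⟨fun Δ hΔ => ?_, hy_box hG hH (Pool.Agent.H50.HYP.Circ.tot h)⟩
  have e := Pool.Agent.H50.HYP.maxD_box hG hH hΔ
  rw [e]
  exact h

theorem cycle_max (n : ℕ) (hn : 3 ≤ n) : MaxDegree (SimpleGraph.cycleGraph n) 2 :=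
  ⟨fun v => (Pool.Agent.H50.HYP.cycle_deg n hn v).le, ⟨0, by omega⟩,
    Pool.Agent.H50.HYP.cycle_deg n hn _⟩

theorem exists_max {V : Type} [Fintype V] (G : SimpleGraph V) (v : V) : ∃ a, MaxDegree G a := by
  classical
  obtain ⟨w, _, hw⟩ := Finset.exists_max_image Finset.univ (fun u => (G.neighborSet u).ncard)
    ⟨v, Finset.mem_univ v⟩
  exact ⟨(G.neighborSet w).ncard, fun u => hw u (Finset.mem_univ u), w, rfl⟩

theorem exists_max_box {V W : Type} [Fintype V] [Fintype W] (G : SimpleGraph V)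
    (H : SimpleGraph W) {Δ : ℕ} (h : MaxDegree (G.boxProd H) Δ) : ∃ a, MaxDegree G a := by
  obtain ⟨_, ⟨v, w⟩, _⟩ := h
  exact exists_max G v

/-- **The Havet–Yu conjecture for Cartesian products.**  All graphs are finite, `p ≥ 1`, `a` is the
maximum degree of `G` and `b` that of `H`.

(1) Let `H` have `k` vertex colours and `k'` edge colours.  If `k' ≥ a + 2`, or
`k' ≥ 3 + 8 a^(2/3) (log a)^(1/3)`, or `k' ≥ 64 p + 32 k + 2 + 524 log (a + 1)`, then `G □ H` has a
circular `(p,1)`-total labelling with `a + k + k' + 2 p - 2` labels.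

(2) If `G` has `j` vertex colours and `j'` edge colours with `j + j' ≤ a + k' + p`, and in particular
if `a + 2 ≤ k' + p`, then `G □ H` has a `(p,1)`-total labelling of span `a + k + k' + 2 p - 3`.

(3) The Havet–Yu conjecture for bipartite `H`: it holds for `G □ H` and `p`, even with the labels on
a circle, if `b ≥ a + 2`, or `b ≥ 3 + 8 a^(2/3) (log a)^(1/3)`, or
`b ≥ 64 p + 66 + 524 log (a + 1)`; and it holds for `G □ H` and `p` if `a + 2 ≤ b + p`, or if `G` has
`j` vertex colours and `j'` edge colours with `j + j' ≤ a + b + p`.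

(4) If `G` satisfies the conjecture for `p + 1` and `H` is bipartite with `b ≥ 3`, then `G □ H`
satisfies it for `p`.  If `G` satisfies the circular form of the conjecture for `p + 1` then `G □ H`
satisfies it for `p` when `H` is bipartite with `b ≥ 2`, and also when `H` is a cycle.

(5) If `H` has a circular `(p,1)`-total labelling with `M > 2 q` labels in which the vertices get
labels from `0, …, 2 q` and `G` has a circular `(p+q,1)`-total labelling with `N ≥ a + M` labels,
then `G □ H` has a circular `(p,1)`-total labelling with `N` labels. -/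
theorem result :
    (∀ (V W : Type) [Fintype V] [Fintype W] (G : SimpleGraph V) (H : SimpleGraph W)
      (p a k k' : ℕ), 1 ≤ p → 1 ≤ k → MaxDegree G a → Colourings H k k' →
      (a + 2 ≤ k' ∨ 3 + 8 * ((a : ℝ) ^ (2 / 3 : ℝ) * Real.log a ^ (1 / 3 : ℝ)) ≤ k' ∨
        64 * (p : ℝ) + 32 * k + 2 + 524 * Real.log (a + 1) ≤ k') →
      CircularLabeling (G.boxProd H) p (a + k + k' + 2 * p - 2)) ∧
    (∀ (V W : Type) [Fintype V] [Fintype W] (G : SimpleGraph V) (H : SimpleGraph W)
      (p a k k' : ℕ), 1 ≤ p → 1 ≤ k → MaxDegree G a → Colourings H k k' →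
      (a + 2 ≤ k' + p ∨ ∃ j j', Colourings G j j' ∧ j + j' ≤ a + k' + p) →
      TotalLabeling (G.boxProd H) p (a + k + k' + 2 * p - 3)) ∧
    (∀ (V W : Type) [Fintype V] [Fintype W] (G : SimpleGraph V) (H : SimpleGraph W)
      (p a b : ℕ), 1 ≤ p → H.Colorable 2 → MaxDegree G a → MaxDegree H b →
      ((a + 2 ≤ b ∨ 3 + 8 * ((a : ℝ) ^ (2 / 3 : ℝ) * Real.log a ^ (1 / 3 : ℝ)) ≤ b ∨
        64 * (p : ℝ) + 66 + 524 * Real.log (a + 1) ≤ b) →
        CircularHavetYu (G.boxProd H) p ∧ HavetYu (G.boxProd H) p) ∧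
      ((a + 2 ≤ b + p ∨ ∃ j j', Colourings G j j' ∧ j + j' ≤ a + b + p) →
        HavetYu (G.boxProd H) p)) ∧
    (∀ (V W : Type) [Fintype V] [Fintype W] (G : SimpleGraph V) (H : SimpleGraph W)
      (p b : ℕ), 1 ≤ p → H.Colorable 2 → MaxDegree H b →
      (HavetYu G (p + 1) → 3 ≤ b → HavetYu (G.boxProd H) p) ∧
      (CircularHavetYu G (p + 1) → 2 ≤ b → CircularHavetYu (G.boxProd H) p)) ∧
    (∀ (V : Type) [Fintype V] (G : SimpleGraph V) (p n : ℕ), 1 ≤ p → 3 ≤ n →
      CircularHavetYu G (p + 1) → CircularHavetYu (G.boxProd (SimpleGraph.cycleGraph n)) p) ∧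
    (∀ (V W : Type) [Fintype V] [Fintype W] (G : SimpleGraph V) (H : SimpleGraph W)
      (p q M N : ℕ), 1 ≤ p → 2 * q < M → ShortLabeling H p M (2 * q) →
      CircularLabeling G (p + q) N → (∀ g, (G.neighborSet g).ncard + M ≤ N) →
      CircularLabeling (G.boxProd H) p N) := by
  refine ⟨?_, ?_, ?_, ?_, ?_, ?_⟩
  · intro V W _ _ G H p a k k' hp hk hG hH h
    obtain ⟨m, rfl⟩ : ∃ m, k = m + 1 := ⟨k - 1, by omega⟩
    have h1 := Pool.Agent.H50.HYP.uncond hp hG hH h
    rwa [show a + m + k' + 2 * p - 1 = a + (m + 1) + k' + 2 * p - 2 by omega] at h1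
  · intro V W _ _ G H p a k k' hp hk hG hH h
    obtain ⟨m, rfl⟩ : ∃ m, k = m + 1 := ⟨k - 1, by omega⟩
    have h1 : Pool.Agent.H50.HYP.Tot (G.boxProd H) p (a + m + k' + 2 * p - 1 - 1) := by
      rcases h with h | ⟨j, j', hj, h⟩
      · exact Pool.Agent.H50.HYP.lin_cols hp hG hH (Pool.Agent.H50.HYP.viz_Cols hG) (by omega)
      · exact Pool.Agent.H50.HYP.lin_cols hp hG hH hj h
    rwa [show a + m + k' + 2 * p - 1 - 1 = a + (m + 1) + k' + 2 * p - 3 by omega] at h1
  · intro V W _ _ G H p a b hp hH hG hb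
    have hc : Pool.Agent.H50.HYP.Cols H (1 + 1) b := Pool.Agent.H50.HYP.bip_Cols hH hb
    refine ⟨fun h => chy_box hG hb ?_, fun h => hy_box hG hb ?_⟩
    · have h1 := Pool.Agent.H50.HYP.uncond (m := 1) hp hG hc (by
        unfold Pool.Agent.H50.HYP.Cond
        rcases h with h | h | h
        · exact Or.inl h
        · exact Or.inr (Or.inl h)
        · refine Or.inr (Or.inr ?_)
          push_cast
          linarith)
      rwa [show a + 1 + b + 2 * p - 1 = a + b + 2 * p by omega] at h1
    · have h1 : Pool.Agent.H50.HYP.Tot (G.boxProd H) p (a + 1 + b + 2 * p - 1 - 1) := by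
        rcases h with h | ⟨j, j', hj, h⟩
        · exact Pool.Agent.H50.HYP.lin_cols hp hG hc (Pool.Agent.H50.HYP.viz_Cols hG) (by omega)
        · exact Pool.Agent.H50.HYP.lin_cols hp hG hc hj h
      rwa [show a + 1 + b + 2 * p - 1 - 1 = a + b + 2 * p - 1 by omega] at h1
  · intro V W _ _ G H p b hp hH hb
    constructor
    · intro h hb3 Δ hΔ
      obtain ⟨a, ha⟩ := exists_max_box G H hΔ
      obtain ⟨fV, fE, h1, h2, h3⟩ := h a ha
      exact hy_box ha hb (Pool.Agent.H50.HYP.lin_hy hp hH ha hb hb3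
        ⟨fV, fE, fun v => (h1 v).trans (by omega), fun e he => (h2 e he).trans (by omega), h3⟩)
        Δ hΔ
    · intro h hb2 Δ hΔ
      obtain ⟨a, ha⟩ := exists_max_box G H hΔ
      exact (chy_box ha hb (Pool.Agent.H50.HYP.bip_box hp hH ha hb (by omega) (h a ha)
        (by omega))).1 Δ hΔ
  · intro V _ G p n hp hn h Δ hΔ
    obtain ⟨a, ha⟩ := exists_max_box G _ hΔ
    exact (chy_box ha (cycle_max n hn) (Pool.Agent.H50.HYP.cycle_box hp hn ha (h a ha))).1 Δ hΔ
  · intro V W _ _ G H p q M N hp hq hH hG hN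
    exact Pool.Agent.H50.HYP.prod_circ G H p q M N hp hq hG hH hN

end Pool.Agent.Results.MP_b8729f_co.CartesianProducts
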