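import Mathlib
import Pool.Agent.H85A.Final

set_option autoImplicit false

/-!
# The Havet-Yu conjecture for `p ≥ Δ - 1`

Proof.  Take a proper colouring of the vertices with the colours `0, …, D - 1` (Brooks) in which the
last class `B` is as small as possible.  Then every vertex of `B` has at most one superfluous
neighbour, every other class satisfies the condition of Hall with respect to `B`, and so the
bipartite graph between `B` and the rest has few edges: every set of vertices which induces in it
minimum degree two induces disjoint cycles, and every such cycle contains two rigid vertices, with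
exactly `D - 2` neighbours outside `B`.  By the theorem of Tutte there is a matching `M` outside `B`
which meets all these cycles, and if `M` is maximal, the vertices of degree `D` of `G - M` induce a
forest.  So `D` colours suffice for the edges of `G - M` (Vizing, Fournier), and the edges of `M` get
a new label which is forbidden only at `B`.  Components which are complete graphs on `D + 1` vertices
are labelled explicitly.
-/

namespace Pool.Agent.Results.MP_b8729f_co.DegreeMinusOne

/-- `TotalLabeling G p l`: the graph `G` has a `(p,1)`-total labeling of span `l`, that is, labels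
`0, …, l` for the vertices (`fV`) and the edges (`fE`) such that adjacent vertices get different
labels, edges sharing an endpoint get different labels, and the labels of a vertex and of an
incident edge differ by at least `p`. -/
def TotalLabeling {V : Type} (G : SimpleGraph V) (p l : ℕ) : Prop :=
  ∃ (fV : V → ℕ) (fE : Sym2 V → ℕ),
    (∀ v, fV v ≤ l) ∧ (∀ e ∈ G.edgeSet, fE e ≤ l) ∧
    (∀ u v, G.Adj u v → fV u ≠ fV v) ∧
    (∀ u v w, G.Adj u v → G.Adj u w → v ≠ w → fE s(u, v) ≠ fE s(u, w)) ∧
    (∀ u v, G.Adj u v → (p : ℤ) ≤ |(fV u : ℤ) - (fE s(u, v) : ℤ)|)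

/-- Let `D ≥ 4` and `p ≥ 1`.  Every finite graph with all degrees at most `D` has a
`(p,1)`-total labeling of span `max (D + 2 p - 1) (2 D + p - 2)`.  If `p ≥ D - 1`, this maximum is
`D + 2 p - 1`. -/
theorem result (V : Type) [Fintype V] (G : SimpleGraph V) (D p : ℕ) (hD : 4 ≤ D) (hp : 1 ≤ p)
    (hdeg : ∀ v, (G.neighborSet v).ncard ≤ D) :
    TotalLabeling G p (max (D + 2 * p - 1) (2 * D + p - 2)) := by
  classical
  obtain ⟨q, rfl⟩ : ∃ q, D = q + 1 := ⟨D - 1, by omega⟩
  obtain ⟨a, c, h1, h2, h3, h4, h5, h6⟩ := Pool.Agent.H85A.lab_all G q p
    (max (q + 1 + 2 * p - 1) (2 * (q + 1) + p - 2)) (by omega) hdeg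
    (le_trans (by omega) (le_max_right _ _)) (Or.inl (le_trans (by omega) (le_max_left _ _)))
  refine ⟨a, fun e => Sym2.lift ⟨fun u v => min (c u v) (c v u), fun u v => min_comm _ _⟩ e,
    h1, ?_, h4, ?_, ?_⟩
  · intro e he
    induction e using Sym2.ind with
    | _ u v =>
      have huv : G.Adj u v := he
      simp only [Sym2.lift_mk]
      exact (min_le_left _ _).trans (h2 u v huv)
  · intro u v w huv huw hvw
    simp only [Sym2.lift_mk]
    rw [← h3 u v huv, ← h3 u w huw, min_self, min_self]
    exact h5 u v w huv huw hvw
  · intro u v huv
    simp only [Sym2.lift_mk]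
    rw [← h3 u v huv, min_self]
    rcases h6 u v huv with h | h
    · rw [abs_sub_comm]
      refine le_trans ?_ (le_abs_self _)
      omega
    · refine le_trans ?_ (le_abs_self _)
      omega

end Pool.Agent.Results.MP_b8729f_co.DegreeMinusOne
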