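import Pool.Agent.H50.HYQ.Prod

set_option autoImplicit false

/-!
# One labelling for all `p`, and the Havet–Yu conjecture for products of many factors

An interval labelling gives a natural number `x v` to every vertex and a natural number `e` to every
edge such that adjacent vertices get different numbers, edges with a common end get different
numbers, and the numbers of the edges at `v` lie in `x v, …, x v + D`.  Reduced modulo `D + 2 p`,
with the numbers of the edges increased by `p`, it is a circular `(p,1)`-total labelling with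
`D + 2 p` labels, for every `p ≥ 1`; so for `D = Δ` it gives the Havet–Yu conjecture for all `p` at
the same time (and even on a circle).

Product theorem.  Let `G` have an interval labelling with `D₁` and let `H` have one with `D₂` in
which the vertices get numbers `≤ r`.  The edges of the copies of `G` in `G □ H` get their numbers
in `G` plus `r`, the vertex `(g, h)` gets `x g + y h`, and the numbers of the edges of the copy of
`H` at `g` are sent, in increasing order, to those numbers `≥ x g` which do not occur on the edges of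
`G` at `g`; they grow by at most `x g + Δ(G)`.  So `G □ H` has an interval labelling with
`D = max (D₁ + r, Δ(G) + D₂)`.

Complete graphs have the interval labelling `x i = i`, `e (i j) = i + j`.  The labellings for
balanced partitions are those of the starting result `BalancedPartitions` before the reduction
modulo the number of labels.
-/

namespace Pool.Agent.Results.MP_b8729f_co.IntervalLabelings

/-- `TotalLabeling G p l`: the graph `G` has a `(p,1)`-total labeling of span `l`, that is, labels
`0, …, l` for the vertices (`fV`) and the edges (`fE`) such that adjacent vertices get different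
labels, edges sharing an endpoint get different labels, and the labels of a vertex and of an
incident edge differ by at least `p`. -/
def TotalLabeling {V : Type} (G : SimpleGraph V) (p l : ℕ) : Prop :=
  ∃ (fV : V → ℕ) (fE : Sym2 V → ℕ),
    (∀ v, fV v ≤ l) ∧ (∀ e ∈ G.edgeSet, fE e ≤ l) ∧
    (∀ u v, G.Adj u v → fV u ≠ fV v) ∧
    (∀ u v w, G.Adj u v → G.Adj u w → v ≠ w → fE s(u, v) ≠ fE s(u, w)) ∧
    (∀ u v, G.Adj u v → (p : ℤ) ≤ |(fV u : ℤ) - (fE s(u, v) : ℤ)|)

/-- `CircularLabeling G p N`: a circular `(p,1)`-total labeling of `G` with the `N` labels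
`0, …, N - 1` placed around a circle: as above, but the distance of the labels of a vertex and of
an incident edge, measured around the circle, is at least `p`
(so `p ≤ |fV u - fE uv| ≤ N - p`). -/
def CircularLabeling {V : Type} (G : SimpleGraph V) (p N : ℕ) : Prop :=
  ∃ (fV : V → ℕ) (fE : Sym2 V → ℕ),
    (∀ v, fV v < N) ∧ (∀ e ∈ G.edgeSet, fE e < N) ∧
    (∀ u v, G.Adj u v → fV u ≠ fV v) ∧
    (∀ u v w, G.Adj u v → G.Adj u w → v ≠ w → fE s(u, v) ≠ fE s(u, w)) ∧
    (∀ u v, G.Adj u v → (p : ℤ) ≤ |(fV u : ℤ) - (fE s(u, v) : ℤ)| ∧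
      |(fV u : ℤ) - (fE s(u, v) : ℤ)| ≤ (N : ℤ) - p)

/-- An interval labelling: numbers `x v ≤ r` for the vertices and numbers for the edges such that
adjacent vertices get different numbers, edges with a common end get different numbers and the
numbers of the edges at `v` lie between `x v` and `x v + D`. -/
def IntervalLabeling {V : Type} (G : SimpleGraph V) (D r : ℕ) : Prop :=
  ∃ (x : V → ℕ) (e : Sym2 V → ℕ), (∀ v, x v ≤ r) ∧ (∀ u v, G.Adj u v → x u ≠ x v) ∧
    (∀ u v w, G.Adj u v → G.Adj u w → v ≠ w → e s(u, v) ≠ e s(u, w)) ∧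
    (∀ u v, G.Adj u v → x u ≤ e s(u, v) ∧ e s(u, v) ≤ x u + D)

/-- `a` is the maximum degree of `G`. -/
def MaxDegree {V : Type} (G : SimpleGraph V) (a : ℕ) : Prop :=
  (∀ v, (G.neighborSet v).ncard ≤ a) ∧ ∃ v, (G.neighborSet v).ncard = a

/-- `G` has a proper vertex colouring with `k` colours and a proper edge colouring with `k'`
colours. -/
def Colourings {V : Type} (G : SimpleGraph V) (k k' : ℕ) : Prop :=
  G.Colorable k ∧ ∃ c : Sym2 V → ℕ, (∀ e ∈ G.edgeSet, c e < k') ∧
    ∀ x y z, G.Adj x y → G.Adj x z → y ≠ z → c s(x, y) ≠ c s(x, z)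

/-- The Cartesian product of finitely many graphs: the vertices are the families `f` of vertices,
and `f` and `g` are adjacent if they differ in exactly one coordinate `i`, where `f i` and `g i`
are adjacent. -/
def CartesianProduct {n : ℕ} {V : Fin n → Type} (G : ∀ i, SimpleGraph (V i)) :
    SimpleGraph (∀ i, V i) where
  Adj f g := ∃ i, (G i).Adj (f i) (g i) ∧ ∀ j, j ≠ i → f j = g j
  symm := ⟨by
    rintro f g ⟨i, h1, h2⟩
    exact ⟨i, h1.symm, fun j hj => (h2 j hj).symm⟩⟩
  loopless := ⟨by
    rintro f ⟨i, h1, _⟩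
    exact (G i).loopless.irrefl _ h1⟩

/-- The factors, with a degree `D` and a number `r`:

* graphs whose vertices can be coloured with `D + 1` colours such that vertices at distance one or
  two get different colours (for example complete graphs with `D + 1` vertices), `r = D`;
* bipartite graphs with degrees at most `D ≥ 1`, `r = 1`;
* cycles, `D = r = 2`;
* graphs with a map `t` of the vertices to `2 m` types such that every vertex has at most `w`
  neighbours of every type, and the types of adjacent vertices are different and not adjacent in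
  a `k`-regular bipartite graph `F` on the types, `k < m`; here `D = (2 m - 1 - k) w`,
  `r = w (m - 1) + 1` and `w ≥ 2` or `1 ≤ k ≤ m / 4`;
* graphs with an even number `n` of vertices and a proper colouring `c` such that a number `s` with
  `2 ≤ s ≤ n / 2` divides the sizes of all colour classes (for example complete multipartite graphs
  whose smallest part, of size `s`, divides all the parts), `D = n - s` and `r = n / 2`. -/
def Factor {V : Type} [Fintype V] (G : SimpleGraph V) (D r : ℕ) : Prop :=
  (r = D ∧ ∃ c : V → ℕ, (∀ v, c v ≤ D) ∧ (∀ u v, G.Adj u v → c u ≠ c v) ∧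
    ∀ u v w, G.Adj u v → G.Adj u w → v ≠ w → c v ≠ c w) ∨
  (1 ≤ D ∧ r = 1 ∧ G.Colorable 2 ∧ ∀ v, (G.neighborSet v).ncard ≤ D) ∨
  (D = 2 ∧ r = 2 ∧ ∃ n, 3 ≤ n ∧ Nonempty (G ≃g SimpleGraph.cycleGraph n)) ∨
  (∃ (m w k : ℕ) (T : Type) (_ : Fintype T) (F : SimpleGraph T) (t : V → T),
    D = (2 * m - 1 - k) * w ∧ r = w * (m - 1) + 1 ∧ k < m ∧ (2 ≤ w ∨ (w = 1 ∧ 1 ≤ k ∧ 4 * k ≤ m)) ∧
    Fintype.card T = 2 * m ∧ F.Colorable 2 ∧ (∀ x, {y | F.Adj x y}.ncard = k) ∧
    (∀ u v, G.Adj u v → t u ≠ t v ∧ ¬ F.Adj (t u) (t v)) ∧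
    (∀ v y, {u | G.Adj v u ∧ t u = y}.ncard ≤ w)) ∨
  (∃ (s : ℕ) (c : V → ℕ), 2 ≤ s ∧ 2 * s ≤ Fintype.card V ∧ D = Fintype.card V - s ∧ r = Fintype.card V / 2 ∧
    (∀ u v, G.Adj u v → c u ≠ c v) ∧ (∀ v, s ∣ {u | c u = c v}.ncard) ∧ Even (Fintype.card V))

theorem factor_le {V : Type} [Fintype V] {G : SimpleGraph V} {D r : ℕ}
    (h : Factor G D r) : r ≤ D := by
  rcases h with ⟨h, _⟩ | ⟨h, h', _⟩ | ⟨h, h', _⟩ | ⟨m, w, k, T, _, F, t, h1, h2, h3, h4, _⟩ |
      ⟨s, c, h1, h2, h3, h4, _⟩
  · exact h.le
  · omega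
  · omega
  · have hw : 1 ≤ w := by omega
    rw [h1, h2]
    have e1 : m * w ≤ (2 * m - 1 - k) * w := Nat.mul_le_mul_right _ (by omega)
    have e2 : w * (m - 1) + w = m * w := by
      calc w * (m - 1) + w = w * (m - 1 + 1) := by ring
        _ = w * m := by rw [Nat.sub_add_cancel (by omega)]
        _ = m * w := Nat.mul_comm _ _
    omega
  · omega

theorem factor_interval {V : Type} [Fintype V] {G : SimpleGraph V} {D r : ℕ}
    (h : Factor G D r) : IntervalLabeling G D r := by
  rcases h with ⟨rfl, c, h1, h2, h3⟩ | ⟨h1, rfl, h2, h3⟩ | ⟨rfl, rfl, n, h1, ⟨f⟩⟩ |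
      ⟨m, w, k, T, _, F, t, rfl, rfl, h3, h4, h5, ⟨C⟩, h7, h8, h9⟩ |
      ⟨s, c, h1, h2, rfl, rfl, h5, h6, h7⟩
  · exact Pool.Agent.H50.HYQ.IL.square c h1 h2 h3
  · obtain ⟨b, cc, a1, a2, a3, a4, a5⟩ := Pool.Agent.H50.HYP.bip_cols G D h2 h3
    have h := Pool.Agent.H50.HYQ.IL.cols (k := 1) b cc a1 a2 a3 a4 a5
    rwa [Nat.add_sub_cancel_left] at h
  · exact Pool.Agent.H50.HYQ.IL.pull (Pool.Agent.H50.HYQ.IL.cycle n h1) f
      (fun u v huv => f.map_adj_iff.2 huv) (fun u v w _ _ h => f.injective h)
  · rcases Nat.eq_zero_or_pos k with hk | hk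
    · subst hk
      have hw2 : 2 ≤ w := by omega
      exact Pool.Agent.H50.HYQ.noforb G m w t hw2 h5 (fun x y h => (h8 x y h).1) h9
    · refine Pool.Agent.H50.HYQ.regular G F (fun x => decide (C x = 0)) m w k t (by omega) hk h3 h5
        h7 ?_ (by omega) h8 h9
      intro x y hxy h
      have h1 := C.valid hxy
      have h2 : (C x = 0) ↔ (C y = 0) := by simpa using h
      have h3 : ∀ a b : Fin 2, (a = 0 ↔ b = 0) → a = b := by decide
      exact h1 (h3 _ _ h2)
  · exact Pool.Agent.H50.HYQ.multi G c s h1 h5 h6 h7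

theorem circ_lin {V : Type} {G : SimpleGraph V} {p N : ℕ} (h : CircularLabeling G p N) :
    TotalLabeling G p (N - 1) := by
  obtain ⟨fV, fE, h1, h2, h3, h4, h5⟩ := h
  exact ⟨fV, fE, fun v => Nat.le_sub_one_of_lt (h1 v), fun e he => Nat.le_sub_one_of_lt (h2 e he),
    h3, h4, fun u v huv => (h5 u v huv).1⟩

theorem pi_interval {n : ℕ} {V : Fin n → Type} [∀ i, Fintype (V i)] {G : ∀ i, SimpleGraph (V i)}
    {D r : Fin n → ℕ} (h1 : ∀ i, MaxDegree (G i) (D i)) (h2 : ∀ i, Factor (G i) (D i) (r i)) :
    IntervalLabeling (CartesianProduct G) (∑ i, D i) (∑ i, r i) :=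
  Pool.Agent.H50.HYQ.IL.pi n V G D r (fun i => (h1 i).1) (fun i => factor_le (h2 i))
    (fun i => factor_interval (h2 i))

/-- **One labelling for all `p`, and the Havet–Yu conjecture for products of many factors.**
All graphs are finite.

(1) Let `P` be a Cartesian product of any number of graphs `G i` with maximum degrees `D i` such that
each factor is a complete graph (more generally, its square has a proper colouring with `D i + 1`
colours), a bipartite graph, a cycle, or one of the graphs with balanced partitions in the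
definition of `Factor`.  Then `P` satisfies the Havet–Yu conjecture for every `p ≥ 1`, and even has
a circular `(p,1)`-total labelling with `Δ + 2 p` labels, `Δ` the maximum degree of `P`.

(2) Let moreover `Q` be an arbitrary graph with maximum degree `a` and let `a + ∑ r i ≤ ∑ D i`, or
let `Q` have `j` vertex colours and `j'` edge colours with `j + j' - 2 + ∑ r i ≤ a + ∑ D i`.  Then the
same holds for the Cartesian product of `Q` and `P`.

(3) Interval labellings in general: an interval labelling with `D` gives circular `(p,1)`-total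
labellings with `D + 2 p` labels for all `p ≥ 1`; if `G` has an interval labelling with `D₁, r₁` and
degrees at most `a`, and `H` has an interval labelling with `D₂, r₂`, then `G □ H` has one with
`D, r₁ + r₂` if `D ≥ D₁ + r₂` and `D ≥ a + D₂`; interval labellings can be pulled back along
homomorphisms which are injective on the neighbourhoods; all the graphs `Factor G D r` have an
interval labelling with `D, r`, and a graph with `k ≥ 1` vertex colours and `k'` edge colours has one
with `k + k' - 2, k - 1`. -/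
theorem result :
    (∀ (n : ℕ) (V : Fin n → Type) [∀ i, Fintype (V i)] (G : ∀ i, SimpleGraph (V i))
      (D r : Fin n → ℕ) (p : ℕ), 1 ≤ p → (∀ i, MaxDegree (G i) (D i)) →
      (∀ i, Factor (G i) (D i) (r i)) →
      MaxDegree (CartesianProduct G) (∑ i, D i) ∧
      CircularLabeling (CartesianProduct G) p (∑ i, D i + 2 * p) ∧
      TotalLabeling (CartesianProduct G) p (∑ i, D i + 2 * p - 1) ∧
      ∀ (U : Type) [Fintype U] (Q : SimpleGraph U) (a : ℕ), MaxDegree Q a →
        (a + ∑ i, r i ≤ ∑ i, D i ∨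
          ∃ j j', Colourings Q j j' ∧ j + j' + ∑ i, r i ≤ a + ∑ i, D i + 2) →
        MaxDegree (Q.boxProd (CartesianProduct G)) (a + ∑ i, D i) ∧
        CircularLabeling (Q.boxProd (CartesianProduct G)) p (a + ∑ i, D i + 2 * p) ∧
        TotalLabeling (Q.boxProd (CartesianProduct G)) p (a + ∑ i, D i + 2 * p - 1)) ∧
    (∀ (V : Type) (G : SimpleGraph V) (D r p : ℕ), 1 ≤ p → IntervalLabeling G D r →
      CircularLabeling G p (D + 2 * p)) ∧
    (∀ (V W : Type) [Fintype V] [Fintype W] (G : SimpleGraph V) (H : SimpleGraph W)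
      (a D₁ r₁ D₂ r₂ D : ℕ), (∀ v, (G.neighborSet v).ncard ≤ a) → IntervalLabeling G D₁ r₁ →
      IntervalLabeling H D₂ r₂ → D₁ + r₂ ≤ D → a + D₂ ≤ D →
      IntervalLabeling (G.boxProd H) D (r₁ + r₂)) ∧
    (∀ (V W : Type) (G : SimpleGraph V) (H : SimpleGraph W) (D r : ℕ) (f : V → W),
      (∀ u v, G.Adj u v → H.Adj (f u) (f v)) →
      (∀ u v w, G.Adj u v → G.Adj u w → f v = f w → v = w) → IntervalLabeling H D r →
      IntervalLabeling G D r) ∧
    (∀ (V : Type) [Fintype V] (G : SimpleGraph V) (D r : ℕ), Factor G D r →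
      IntervalLabeling G D r) ∧
    (∀ (V : Type) (G : SimpleGraph V) (k k' : ℕ), 1 ≤ k → Colourings G k k' →
      IntervalLabeling G (k + k' - 2) (k - 1)) := by
  have hcol : ∀ (V : Type) (G : SimpleGraph V) (k k' : ℕ), 1 ≤ k → Colourings G k k' →
      IntervalLabeling G (k + k' - 2) (k - 1) := by
    intro V G k k' hk h
    obtain ⟨m, rfl⟩ : ∃ m, k = m + 1 := ⟨k - 1, by omega⟩
    have h1 := Pool.Agent.H50.HYQ.IL.of_Cols h
    rwa [show m + 1 + k' - 2 = m + k' - 1 by omega, Nat.add_sub_cancel]
  refine ⟨?_, ?_, ?_, ?_, ?_, hcol⟩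
  · intro n V _ G D r p hp h1 h2
    have hI := pi_interval h1 h2
    have hM : MaxDegree (CartesianProduct G) (∑ i, D i) := Pool.Agent.H50.HYQ.MaxD.pi n V G D h1
    have hC : CircularLabeling (CartesianProduct G) p (∑ i, D i + 2 * p) :=
      Pool.Agent.H50.HYQ.IL.circ hI hp
    refine ⟨hM, hC, circ_lin hC, ?_⟩
    intro U _ Q a hQ hcond
    have hbox : MaxDegree (Q.boxProd (CartesianProduct G)) (a + ∑ i, D i) :=
      Pool.Agent.H50.HYQ.MaxD.box hQ hM
    have hcond' : ∃ j j', Colourings Q j j' ∧ j + j' + ∑ i, r i ≤ a + ∑ i, D i + 2 := by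
      rcases hcond with h | h
      · exact ⟨a + 1, a + 1, Pool.Agent.H50.HYP.viz_Cols hQ, by omega⟩
      · exact h
    obtain ⟨j, j', hj, hle⟩ := hcond'
    have hj1 : 1 ≤ j := by
      rcases Nat.eq_zero_or_pos j with h0 | h0
      · subst h0
        obtain ⟨⟨C⟩, _⟩ := hj
        obtain ⟨_, v, _⟩ := hQ
        exact (C v).elim0
      · exact h0
    have hrD : ∑ i, r i ≤ ∑ i, D i := Finset.sum_le_sum fun i _ => factor_le (h2 i)
    have hIb : IntervalLabeling (Q.boxProd (CartesianProduct G)) (a + ∑ i, D i)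
        (j - 1 + ∑ i, r i) :=
      Pool.Agent.H50.HYQ.IL.box hQ.1 (hcol U Q j j' hj1 hj) hI (by omega) le_rfl
    have hCb : CircularLabeling (Q.boxProd (CartesianProduct G)) p (a + ∑ i, D i + 2 * p) :=
      Pool.Agent.H50.HYQ.IL.circ hIb hp
    exact ⟨hbox, hCb, circ_lin hCb⟩
  · intro V G D r p hp h
    exact Pool.Agent.H50.HYQ.IL.circ h hp
  · intro V W _ _ G H a D₁ r₁ D₂ r₂ D h1 h2 h3 h4 h5
    exact Pool.Agent.H50.HYQ.IL.box h1 h2 h3 h4 h5
  · intro V W G H D r f h1 h2 h3
    exact Pool.Agent.H50.HYQ.IL.pull h3 f h1 h2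
  · intro V _ G D r h
    exact factor_interval h

end Pool.Agent.Results.MP_b8729f_co.IntervalLabelings
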