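import Pool.Agent.H33HY.Split

set_option autoImplicit false

/-!
# The Havet–Yu conjecture for split graphs and their products, for all `p` with one labelling

A graph is split if its vertices are the disjoint union of a clique `K` and an independent set. We show
that every split graph has an interval labelling with `D = Δ`: numbers `x v` for the vertices, different
for adjacent vertices, and numbers for the edges, different for edges with a common end, such that the
numbers of the edges at `v` lie in `x v, …, x v + Δ`. Such a labelling gives, for every `p ≥ 1`, a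
circular `(p,1)`-total labelling with `Δ + 2 p` labels, so the Havet–Yu conjecture holds for split
graphs, for all `p` at the same time.

More generally we treat (`NearlySplit`) graphs with a set `K` of vertices, numbered by different numbers
`x v < k`, such that the numbers `x u ≤ k` of the vertices `u` outside of `K` are larger than those of
their neighbours in `K`, with `k + |N(v) ∖ K| ≤ D + 1` for `v` in `K`, and with
`deg u + deg v + |x u - x v| ≤ D + 2` and `x u ≠ x v` for the edges `u v` outside of `K`. Two special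
cases:

* `I` is an independent set and `|V ∖ I| + |N(v) ∩ I| ≤ D + 1` for every vertex `v` outside of `I`. For
  `D = Δ` this says that in the complement of `G`, of minimum degree `m`, there is a clique `I` such
  that all vertices outside of `I` have at least `m` neighbours in `I`.
* `K` is a clique in which `q` vertices have no neighbours outside of `K`, the graph outside of `K` has
  a proper colouring with `q + 1` colours, and `deg u + deg v ≤ Δ + 2 - q` for its edges `u v`.

By the product theorem for interval labellings (`Pool.Agent.H50.HYQ`, by helper50) the conjecture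
follows for the Cartesian products of any number of such graphs, bipartite graphs and cycles, and for
the Cartesian products of these with an arbitrary graph `Q` if the maximum degree of `Q` is small.

Proof. The edges inside `K` get the numbers `x u + x v`. The edges from `K` to the other vertices get
numbers such that those at `v` lie in `k + x v, …, D + x v`. They are chosen for `v = v_0, v_1, …` in the
order of the numbers `x v`: among the vertices outside of `K` at most `D - k - s` have already an edge
with the number `k + x v + s`, because this number is possible only at those earlier vertices of `K`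
whose number is at least `x v + s - (D - k)`. So by Hall's theorem these numbers can be given to the
edges at `v`. The degrees of the vertices outside of `K` do not matter. The remaining edges are labelled
greedily.
-/

namespace Pool.Agent.Results.MP_b8729f_co.SplitGraphs

/-- `TotalLabeling G p l`: the graph `G` has a `(p,1)`-total labeling of span `l`, that is, labels
`0, …, l` for the vertices (`fV`) and the edges (`fE`) such that adjacent vertices get different
labels, edges sharing an endpoint get different labels, and the labels of a vertex and of an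
incident edge differ by at least `p`. -/
def TotalLabeling {V : Type} (G : SimpleGraph V) (p l : ℕ) : Prop :=
  ∃ (fV : V → ℕ) (fE : Sym2 V → ℕ),
    (∀ v, fV v ≤ l) ∧ (∀ e ∈ G.edgeSet, fE e ≤ l) ∧
    (∀ u v, G.Adj u v → fV u ≠ fV v) ∧
    (∀ u v w, G.Adj u v → G.Adj u w → v ≠ w → fE s(u, v) ≠ fE s(u, w)) ∧
    (∀ u v, G.Adj u v → (p : ℤ) ≤ |(fV u : ℤ) - (fE s(u, v) : ℤ)|)

/-- `CircularLabeling G p N`: a circular `(p,1)`-total labeling of `G` with the `N` labels
`0, …, N - 1` placed around a circle: as above, but the distance of the labels of a vertex and of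
an incident edge, measured around the circle, is at least `p`
(so `p ≤ |fV u - fE uv| ≤ N - p`). -/
def CircularLabeling {V : Type} (G : SimpleGraph V) (p N : ℕ) : Prop :=
  ∃ (fV : V → ℕ) (fE : Sym2 V → ℕ),
    (∀ v, fV v < N) ∧ (∀ e ∈ G.edgeSet, fE e < N) ∧
    (∀ u v, G.Adj u v → fV u ≠ fV v) ∧
    (∀ u v w, G.Adj u v → G.Adj u w → v ≠ w → fE s(u, v) ≠ fE s(u, w)) ∧
    (∀ u v, G.Adj u v → (p : ℤ) ≤ |(fV u : ℤ) - (fE s(u, v) : ℤ)| ∧
      |(fV u : ℤ) - (fE s(u, v) : ℤ)| ≤ (N : ℤ) - p)

/-- An interval labelling: numbers `x v ≤ r` for the vertices and numbers for the edges such that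
adjacent vertices get different numbers, edges with a common end get different numbers and the
numbers of the edges at `v` lie between `x v` and `x v + D`. -/
def IntervalLabeling {V : Type} (G : SimpleGraph V) (D r : ℕ) : Prop :=
  ∃ (x : V → ℕ) (e : Sym2 V → ℕ), (∀ v, x v ≤ r) ∧ (∀ u v, G.Adj u v → x u ≠ x v) ∧
    (∀ u v w, G.Adj u v → G.Adj u w → v ≠ w → e s(u, v) ≠ e s(u, w)) ∧
    (∀ u v, G.Adj u v → x u ≤ e s(u, v) ∧ e s(u, v) ≤ x u + D)

/-- the degree of a vertex -/
noncomputable def deg {V : Type} (G : SimpleGraph V) (v : V) : ℕ := (G.neighborSet v).ncard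

/-- `a` is the maximum degree of `G`. -/
def MaxDegree {V : Type} (G : SimpleGraph V) (a : ℕ) : Prop := (∀ v, deg G v ≤ a) ∧ ∃ v, deg G v = a

/-- The vertices in `K` have different numbers `x v < k`, the other vertices have numbers `x v ≤ k`, larger
than those of their neighbours in `K`; every vertex in `K` has at most `D + 1 - k` neighbours outside of
`K` (`k ≤ D + 1`); and `x u ≠ x v`, `deg u + deg v + |x u - x v| ≤ D + 2` for the edges `u v` outside of
`K`. All numbers are at most `r`. -/
def NearlySplit {V : Type} (G : SimpleGraph V) (D r : ℕ) : Prop :=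
  ∃ (K : Set V) (x : V → ℕ) (k : ℕ), Set.InjOn x K ∧ (∀ v ∈ K, x v < k) ∧ (∀ v, x v ≤ k ∧ x v ≤ r) ∧
    (∀ u v, G.Adj u v → u ∉ K → v ∈ K → x v < x u) ∧
    (∀ v ∈ K, k + {u | G.Adj v u ∧ u ∉ K}.ncard ≤ D + 1) ∧
    (∀ u v, G.Adj u v → u ∉ K → v ∉ K → x u ≠ x v ∧
      (deg G u : ℤ) + deg G v + |(x u : ℤ) - x v| ≤ D + 2)

/-- The Cartesian product of finitely many graphs: the vertices are the families `f` of vertices,
and `f` and `g` are adjacent if they differ in exactly one coordinate `i`, where `f i` and `g i`
are adjacent. -/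
def CartesianProduct {n : ℕ} {V : Fin n → Type} (G : ∀ i, SimpleGraph (V i)) :
    SimpleGraph (∀ i, V i) where
  Adj f g := ∃ i, (G i).Adj (f i) (g i) ∧ ∀ j, j ≠ i → f j = g j
  symm := ⟨by
    rintro f g ⟨i, h1, h2⟩
    exact ⟨i, h1.symm, fun j hj => (h2 j hj).symm⟩⟩
  loopless := ⟨by
    rintro f ⟨i, h1, _⟩
    exact (G i).loopless.irrefl _ h1⟩

/-- The factors: nearly split graphs with `r ≤ D`, bipartite graphs with degrees at most `D ≥ 1` (`r = 1`),
and cycles (`D = r = 2`). -/
def Factor {V : Type} (G : SimpleGraph V) (D r : ℕ) : Prop :=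
  (r ≤ D ∧ NearlySplit G D r) ∨ (1 ≤ D ∧ r = 1 ∧ G.Colorable 2 ∧ ∀ v, deg G v ≤ D) ∨
    (D = 2 ∧ r = 2 ∧ ∃ n, 3 ≤ n ∧ Nonempty (G ≃g SimpleGraph.cycleGraph n))

theorem nearly_interval {V : Type} [Fintype V] {G : SimpleGraph V} {D r : ℕ} (h : NearlySplit G D r) :
    IntervalLabeling G D r := by
  classical
  obtain ⟨K, x, k, h1, h2, h3, h4, h5, h6⟩ := h
  have hdeg : ∀ v, G.degree v = deg G v := by
    intro v
    unfold deg
    rw [Set.ncard_eq_toFinset_card', ← SimpleGraph.neighborFinset_def,
      SimpleGraph.card_neighborFinset_eq_degree]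
  have hK : ∀ v, v ∈ K.toFinset ↔ v ∈ K := fun v => Set.mem_toFinset
  refine Pool.Agent.H33HY.main G K.toFinset x k D r (by rwa [Set.coe_toFinset])
    (fun v hv => h2 v ((hK v).1 hv)) (fun v => (h3 v).2) (fun u _ => (h3 u).1)
    (fun u v huv hv hu => h4 u v huv (fun h => hu ((hK u).2 h)) ((hK v).1 hv)) ?_ ?_
  · intro v hv
    have h7 := h5 v ((hK v).1 hv)
    have h8 : {u | G.Adj v u ∧ u ∉ K}.ncard =
        ((G.neighborFinset v).filter (fun u => u ∉ K.toFinset)).card := by
      rw [← Set.ncard_coe_finset]
      congr 1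
      ext u
      simp only [Set.mem_ofPred_eq, Finset.coe_filter, SimpleGraph.mem_neighborFinset, hK]
    rw [← h8]
    exact h7
  · intro u v huv hu hv
    obtain ⟨h7, h8⟩ := h6 u v huv (fun h => hu ((hK u).2 h)) (fun h => hv ((hK v).2 h))
    refine ⟨h7, ?_⟩
    rw [hdeg, hdeg]
    have h9 : ((max (x u) (x v) - min (x u) (x v) : ℕ) : ℤ) = |(x u : ℤ) - x v| := by
      rcases le_total (x u) (x v) with h | h
      · rw [max_eq_right h, min_eq_left h, abs_of_nonpos (by omega)]
        omega
      · rw [max_eq_left h, min_eq_right h, abs_of_nonneg (by omega)]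
        omega
    omega

theorem circ_lin {V : Type} {G : SimpleGraph V} {p N : ℕ} (h : CircularLabeling G p N) :
    TotalLabeling G p (N - 1) := by
  obtain ⟨fV, fE, h1, h2, h3, h4, h5⟩ := h
  exact ⟨fV, fE, fun v => Nat.le_sub_one_of_lt (h1 v), fun e he => Nat.le_sub_one_of_lt (h2 e he),
    h3, h4, fun u v huv => (h5 u v huv).1⟩

theorem factor_interval {V : Type} [Fintype V] {G : SimpleGraph V} {D r : ℕ} (h : Factor G D r) :
    IntervalLabeling G D r := by
  rcases h with ⟨-, h⟩ | ⟨h1, rfl, h2, h3⟩ | ⟨rfl, rfl, n, h1, ⟨f⟩⟩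
  · exact nearly_interval h
  · obtain ⟨b, cc, a1, a2, a3, a4, a5⟩ := Pool.Agent.H50.HYP.bip_cols G D h2 h3
    have h := Pool.Agent.H50.HYQ.IL.cols (k := 1) b cc a1 a2 a3 a4 a5
    rwa [Nat.add_sub_cancel_left] at h
  · exact Pool.Agent.H50.HYQ.IL.pull (Pool.Agent.H50.HYQ.IL.cycle n h1) f
      (fun u v huv => f.map_adj_iff.2 huv) (fun u v w _ _ h => f.injective h)

theorem factor_le {V : Type} {G : SimpleGraph V} {D r : ℕ} (h : Factor G D r) : r ≤ D := by
  rcases h with ⟨h, -⟩ | ⟨h1, rfl, -⟩ | ⟨rfl, rfl, -⟩
  · exact h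
  · exact h1
  · exact le_rfl

/-- a numbering of a finite set -/
theorem numbering {V : Type} [Fintype V] (A : Set V) :
    ∃ x : V → ℕ, Set.InjOn x A ∧ ∀ v ∈ A, x v < A.ncard := by
  classical
  have hc : Fintype.card A = A.ncard := by
    rw [Set.ncard_eq_toFinset_card', Set.toFinset_card]
  let e : A ≃ Fin A.ncard := (Fintype.equivFin A).trans (finCongr hc)
  refine ⟨fun v => if h : v ∈ A then (e ⟨v, h⟩ : ℕ) else 0, ?_, ?_⟩
  · intro u hu v hv he
    simp only [dif_pos hu, dif_pos hv] at he
    have h1 := e.injective (Fin.ext he)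
    exact congrArg Subtype.val h1
  · intro v hv
    simp only [dif_pos hv]
    exact (e ⟨v, hv⟩).2

/-- an independent set such that the vertices outside have few neighbours in it -/
theorem of_independent {V : Type} [Fintype V] (G : SimpleGraph V) (D : ℕ) (I : Set V)
    (hI : ∀ u v, u ∈ I → v ∈ I → ¬ G.Adj u v)
    (hD : ∀ v, v ∉ I → Iᶜ.ncard + {u | G.Adj v u ∧ u ∈ I}.ncard ≤ D + 1) :
    NearlySplit G D (min D Iᶜ.ncard) := by
  classical
  obtain ⟨y, hy1, hy2⟩ := numbering (Iᶜ : Set V)
  refine ⟨Iᶜ, fun v => if v ∈ I then (if ∃ w, G.Adj v w then Iᶜ.ncard else 0) else y v, Iᶜ.ncard,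
    ?_, ?_, ?_, ?_, ?_, ?_⟩
  · intro u hu v hv he
    have hu' : u ∉ I := hu
    have hv' : v ∉ I := hv
    simp only [if_neg hu', if_neg hv'] at he
    exact hy1 hu hv he
  · intro v hv
    have hv' : v ∉ I := hv
    simp only [if_neg hv']
    exact hy2 v hv
  · intro v
    by_cases hv : v ∈ I
    · simp only [if_pos hv]
      split_ifs with h
      · obtain ⟨w, hw⟩ := h
        have hwI : w ∉ I := fun h => hI v w hv h hw
        have h1 := hD w hwI
        have h2 : 1 ≤ {u | G.Adj w u ∧ u ∈ I}.ncard := by
          rw [Nat.one_le_iff_ne_zero, Ne, Set.ncard_eq_zero (Set.toFinite _)]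
          exact fun h => (h ▸ (⟨hw.symm, hv⟩ : v ∈ {u | G.Adj w u ∧ u ∈ I}) : v ∈ (∅ : Set V))
        omega
      · omega
    · simp only [if_neg hv]
      have h1 := hy2 v hv
      have h2 := hD v hv
      omega
  · intro u v huv hu hv
    have hu' : u ∈ I := by simpa using hu
    have hv' : v ∉ I := hv
    simp only [if_pos hu', if_neg hv', if_pos (⟨v, huv⟩ : ∃ w, G.Adj u w)]
    exact hy2 v hv
  · intro v hv
    have h1 := hD v hv
    simpa using h1
  · intro u v huv hu hv
    have hu' : u ∈ I := by simpa using hu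
    have hv' : v ∈ I := by simpa using hv
    exact absurd huv (hI u v hu' hv')

/-- a clique with `q` vertices without neighbours outside -/
theorem of_clique {V : Type} [Fintype V] (G : SimpleGraph V) (D q : ℕ) (K S : Set V) (c : V → ℕ)
    (hdeg : ∀ v, deg G v ≤ D) (hK : G.IsClique K) (hS : S ⊆ K) (hq : S.ncard = q)
    (hSK : ∀ u v, u ∈ S → v ∉ K → ¬ G.Adj u v) (hc : ∀ v, c v ≤ q)
    (hc2 : ∀ u v, G.Adj u v → u ∉ K → v ∉ K → c u ≠ c v ∧ deg G u + deg G v + q ≤ D + 2) :
    NearlySplit G D K.ncard := by
  classical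
  obtain ⟨y, hy1, hy2⟩ := numbering (K \ S)
  obtain ⟨z, hz1, hz2⟩ := numbering S
  have hcard : (K \ S).ncard + q = K.ncard := by
    rw [← hq]
    exact Set.ncard_sdiff_add_ncard_of_subset hS (Set.toFinite _)
  have hmem : ∀ v, v ∈ K → v ∉ S → v ∈ K \ S := fun v h h' => ⟨h, h'⟩
  refine ⟨K, fun v => if v ∈ K then (if v ∈ S then (K \ S).ncard + z v else y v) else K.ncard - c v,
    K.ncard, ?_, ?_, ?_, ?_, ?_, ?_⟩
  · intro u hu v hv he
    simp only [if_pos hu, if_pos hv] at he
    by_cases hu' : u ∈ S
    · by_cases hv' : v ∈ S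
      · simp only [if_pos hu', if_pos hv'] at he
        exact hz1 hu' hv' (by omega)
      · simp only [if_pos hu', if_neg hv'] at he
        have := hy2 v (hmem v hv hv')
        omega
    · by_cases hv' : v ∈ S
      · simp only [if_neg hu', if_pos hv'] at he
        have := hy2 u (hmem u hu hu')
        omega
      · simp only [if_neg hu', if_neg hv'] at he
        exact hy1 (hmem u hu hu') (hmem v hv hv') he
  · intro v hv
    simp only [if_pos hv]
    split_ifs with h
    · have := hz2 v h
      omega
    · have := hy2 v (hmem v hv h)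
      omega
  · intro v
    by_cases hv : v ∈ K
    · simp only [if_pos hv]
      split_ifs with h
      · have := hz2 v h
        omega
      · have := hy2 v (hmem v hv h)
        omega
    · simp only [if_neg hv]
      omega
  · intro u v huv hu hv
    have hvS : v ∉ S := fun h => hSK v u h hu huv.symm
    simp only [if_neg hu, if_pos hv, if_neg hvS]
    have h1 := hy2 v (hmem v hv hvS)
    have h2 := hc u
    omega
  · intro v hv
    have h1 := hdeg v
    have h2 : (K \ {v}).ncard + 1 = K.ncard := Set.ncard_sdiff_singleton_add_one hv (Set.toFinite _)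
    have h3 : G.neighborSet v = (K \ {v}) ∪ {u | G.Adj v u ∧ u ∉ K} := by
      ext u
      simp only [SimpleGraph.mem_neighborSet, Set.mem_union, Set.mem_sdiff, Set.mem_singleton_iff,
        Set.mem_ofPred_eq]
      constructor
      · intro h
        by_cases hu : u ∈ K
        · exact Or.inl ⟨hu, h.ne'⟩
        · exact Or.inr ⟨h, hu⟩
      · rintro (⟨h, h'⟩ | h)
        · exact hK hv h (fun he => h' he.symm)
        · exact h.1
    have h4 : Disjoint (K \ {v}) {u | G.Adj v u ∧ u ∉ K} := by
      rw [Set.disjoint_left]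
      rintro u ⟨h, -⟩ ⟨-, h'⟩
      exact h' h
    unfold deg at h1
    rw [h3, Set.ncard_union_eq h4 (Set.toFinite _) (Set.toFinite _)] at h1
    omega
  · intro u v huv hu hv
    obtain ⟨h1, h2⟩ := hc2 u v huv hu hv
    have h3 := hc u
    have h4 := hc v
    simp only [if_neg hu, if_neg hv]
    refine ⟨by omega, ?_⟩
    have h5 : |((K.ncard - c u : ℕ) : ℤ) - ((K.ncard - c v : ℕ) : ℤ)| ≤ q := by
      rw [abs_le]
      omega
    omega

/-- **The Havet–Yu conjecture for split graphs and their products.** All graphs are finite.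

(1) A nearly split graph (`NearlySplit G D r`) has an interval labelling with `D`, `r`, and so a circular
`(p,1)`-total labelling with `D + 2 p` labels and a `(p,1)`-total labelling of span `D + 2 p - 1` for
every `p ≥ 1`.

(2) If `I` is an independent set and `|V ∖ I| + |N(v) ∩ I| ≤ D + 1` for all vertices `v` outside of `I`,
then `G` is nearly split with `D` and `r = min D |V ∖ I|`.

(3) Let the degrees be at most `D` and let `K` be a clique. If the graph is split (no edges outside of
`K`), then it is nearly split with `D` and `r = min D |K|`. If the `q` vertices of `S ⊆ K` have no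
neighbours outside of `K`, and the graph outside of `K` has a proper colouring with `q + 1` colours and
`deg u + deg v + q ≤ D + 2` for its edges, then the graph is nearly split with `D` and `r = |K|`.

(4) Let `P` be the Cartesian product of any number of graphs `G i` with maximum degrees `D i` which are
nearly split with `D i`, `r i ≤ D i`, or bipartite, or cycles (`Factor`). Then the maximum degree of `P`
is `∑ D i` and `P` has a circular `(p,1)`-total labelling with `∑ D i + 2 p` labels and one of span
`∑ D i + 2 p - 1` for every `p ≥ 1`. The same holds for the Cartesian product of an ARBITRARY graph `Q`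
of maximum degree `a` and `P` if `a + ∑ r i ≤ ∑ D i`. -/
theorem result :
    (∀ (V : Type) [Fintype V] (G : SimpleGraph V) (D r : ℕ), NearlySplit G D r →
      IntervalLabeling G D r ∧ ∀ p : ℕ, 1 ≤ p →
        CircularLabeling G p (D + 2 * p) ∧ TotalLabeling G p (D + 2 * p - 1)) ∧
    (∀ (V : Type) [Fintype V] (G : SimpleGraph V) (D : ℕ) (I : Set V),
      (∀ u v, u ∈ I → v ∈ I → ¬ G.Adj u v) →
      (∀ v, v ∉ I → Iᶜ.ncard + {u | G.Adj v u ∧ u ∈ I}.ncard ≤ D + 1) →
      NearlySplit G D (min D Iᶜ.ncard)) ∧
    (∀ (V : Type) [Fintype V] (G : SimpleGraph V) (D : ℕ) (K : Set V), (∀ v, deg G v ≤ D) →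
      G.IsClique K →
      ((∀ u v, u ∉ K → v ∉ K → ¬ G.Adj u v) → NearlySplit G D (min D K.ncard)) ∧
      ∀ (S : Set V) (q : ℕ) (c : V → ℕ), S ⊆ K → S.ncard = q →
        (∀ u v, u ∈ S → v ∉ K → ¬ G.Adj u v) → (∀ v, c v ≤ q) →
        (∀ u v, G.Adj u v → u ∉ K → v ∉ K → c u ≠ c v ∧ deg G u + deg G v + q ≤ D + 2) →
        NearlySplit G D K.ncard) ∧
    (∀ (n : ℕ) (V : Fin n → Type) [∀ i, Fintype (V i)] (G : ∀ i, SimpleGraph (V i))
      (D r : Fin n → ℕ) (p : ℕ), 1 ≤ p → (∀ i, MaxDegree (G i) (D i)) →
      (∀ i, Factor (G i) (D i) (r i)) →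
      MaxDegree (CartesianProduct G) (∑ i, D i) ∧
      CircularLabeling (CartesianProduct G) p (∑ i, D i + 2 * p) ∧
      TotalLabeling (CartesianProduct G) p (∑ i, D i + 2 * p - 1) ∧
      ∀ (U : Type) [Fintype U] (Q : SimpleGraph U) (a : ℕ), MaxDegree Q a →
        a + ∑ i, r i ≤ ∑ i, D i →
        MaxDegree (Q.boxProd (CartesianProduct G)) (a + ∑ i, D i) ∧
        CircularLabeling (Q.boxProd (CartesianProduct G)) p (a + ∑ i, D i + 2 * p) ∧
        TotalLabeling (Q.boxProd (CartesianProduct G)) p (a + ∑ i, D i + 2 * p - 1)) := by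
  refine ⟨?_, ?_, ?_, ?_⟩
  · intro V _ G D r h
    have hI := nearly_interval h
    refine ⟨hI, fun p hp => ?_⟩
    have hC : CircularLabeling G p (D + 2 * p) := Pool.Agent.H50.HYQ.IL.circ hI hp
    exact ⟨hC, circ_lin hC⟩
  · intro V _ G D I hI hD
    exact of_independent G D I hI hD
  · intro V _ G D K hdeg hK
    refine ⟨fun hsplit => ?_, fun S q c hS hq hSK hc hc2 => of_clique G D q K S c hdeg hK hS hq hSK hc hc2⟩
    have h1 := of_independent G D Kᶜ (fun u v hu hv => hsplit u v hu hv) (fun v hv => ?_)
    · rwa [compl_compl] at h1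
    · have hv' : v ∈ K := by simpa using hv
      have h1 := hdeg v
      have h2 : (K \ {v}).ncard + 1 = K.ncard := Set.ncard_sdiff_singleton_add_one hv' (Set.toFinite _)
      have h3 : G.neighborSet v = (K \ {v}) ∪ {u | G.Adj v u ∧ u ∈ Kᶜ} := by
        ext u
        simp only [SimpleGraph.mem_neighborSet, Set.mem_union, Set.mem_sdiff, Set.mem_singleton_iff,
          Set.mem_ofPred_eq, Set.mem_compl_iff]
        constructor
        · intro h
          by_cases hu : u ∈ K
          · exact Or.inl ⟨hu, h.ne'⟩
          · exact Or.inr ⟨h, hu⟩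
        · rintro (⟨h, h'⟩ | h)
          · exact hK hv' h (fun he => h' he.symm)
          · exact h.1
      have h4 : Disjoint (K \ {v}) {u | G.Adj v u ∧ u ∈ Kᶜ} := by
        rw [Set.disjoint_left]
        rintro u ⟨h, -⟩ ⟨-, h'⟩
        exact h' h
      unfold deg at h1
      rw [h3, Set.ncard_union_eq h4 (Set.toFinite _) (Set.toFinite _)] at h1
      rw [compl_compl]
      omega
  · intro n V _ G D r p hp h1 h2
    have hI : IntervalLabeling (CartesianProduct G) (∑ i, D i) (∑ i, r i) :=
      Pool.Agent.H50.HYQ.IL.pi n V G D r (fun i => (h1 i).1) (fun i => factor_le (h2 i))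
        (fun i => factor_interval (h2 i))
    have hM : MaxDegree (CartesianProduct G) (∑ i, D i) := Pool.Agent.H50.HYQ.MaxD.pi n V G D h1
    have hC : CircularLabeling (CartesianProduct G) p (∑ i, D i + 2 * p) :=
      Pool.Agent.H50.HYQ.IL.circ hI hp
    refine ⟨hM, hC, circ_lin hC, ?_⟩
    intro U _ Q a hQ hcond
    have hbox : MaxDegree (Q.boxProd (CartesianProduct G)) (a + ∑ i, D i) :=
      Pool.Agent.H50.HYQ.MaxD.box hQ hM
    have hQI : IntervalLabeling Q (a + (a + 1) - 1) a :=
      Pool.Agent.H50.HYQ.IL.of_Cols (Pool.Agent.H50.HYP.viz_Cols hQ)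
    have hIb : IntervalLabeling (Q.boxProd (CartesianProduct G)) (a + ∑ i, D i)
        (a + ∑ i, r i) :=
      Pool.Agent.H50.HYQ.IL.box hQ.1 hQI hI (by omega) le_rfl
    have hCb : CircularLabeling (Q.boxProd (CartesianProduct G)) p (a + ∑ i, D i + 2 * p) :=
      Pool.Agent.H50.HYQ.IL.circ hIb hp
    exact ⟨hbox, hCb, circ_lin hCb⟩

end Pool.Agent.Results.MP_b8729f_co.SplitGraphs
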